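import Pool.Agent.W907.SM.Stmts

/-!
# Project SM, M_CSTEP: acyclicity in odd length by Euler characteristic (helper85)
-/

set_option autoImplicit false
set_option maxHeartbeats 4000000

namespace Pool.Agent.W85.SM.CStep

open Finset Pool.Agent.W907.SG Pool.Agent.W907.SM

section gen

variable {V C K : Type} [Fintype V] [LinearOrder V] [DecidableEq C] [Field K]

omit [Fintype V] in
theorem isLC_congr {G : SimpleGraph V} {col : V → C} {D D' : Set C} {τ : V → K} {A : Set V} {i : ℕ}
    {c : Finset V → (C → Bool) → K} (h : ∀ v ∈ A, col v ∈ D' → col v ∈ D)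
    (hc : IsLC G col D τ A i c) : IsLC G col D' τ A i c where
  supp := hc.supp
  line := by
    intro T t ht hD ε
    by_cases hT : G.IsClique (T : Set V) ∧ (T : Set V) ⊆ A ∧ T.card = i
    · exact hc.line T t ht (h t (hT.2.1 ht) hD) ε
    · rw [hc.supp T hT]
      simp

theorem ex_congr {G : SimpleGraph V} {col : V → C} {D D' : Set C} {τ : V → K} {A : Set V} {i : ℕ}
    (h : ∀ v ∈ A, col v ∈ D ↔ col v ∈ D') (hE : EX G col D τ A i) : EX G col D' τ A i := by
  intro z hz hb
  obtain ⟨y, hy, hby⟩ := hE z (isLC_congr (fun v hv => (h v hv).1) hz) hb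
  exact ⟨y, isLC_congr (fun v hv => (h v hv).2) hy, hby⟩

/-- line chains as a submodule -/
def LC (G : SimpleGraph V) (col : V → C) (D : Set C) (τ : V → K) (A : Set V) (i : ℕ) :
    Submodule K (Finset V → (C → Bool) → K) where
  carrier := {c | IsLC G col D τ A i c}
  add_mem' := by
    intro a b ha hb
    refine ⟨fun T hT => ?_, fun T t ht hD ε => ?_⟩
    · rw [Pi.add_apply, ha.supp T hT, hb.supp T hT, add_zero]
    · rw [Pi.add_apply, Pi.add_apply, Pi.add_apply, ha.line T t ht hD ε, hb.line T t ht hD ε,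
        mul_add]
  zero_mem' := by
    refine ⟨fun T hT => rfl, fun T t ht hD ε => ?_⟩
    simp
  smul_mem' := by
    intro k a ha
    refine ⟨fun T hT => ?_, fun T t ht hD ε => ?_⟩
    · rw [Pi.smul_apply, ha.supp T hT, smul_zero]
    · rw [Pi.smul_apply, Pi.smul_apply, Pi.smul_apply, ha.line T t ht hD ε, smul_eq_mul,
        smul_eq_mul]
      ring

omit [Fintype V] in
theorem mem_LC {G : SimpleGraph V} {col : V → C} {D : Set C} {τ : V → K} {A : Set V} {i : ℕ}
    {c : Finset V → (C → Bool) → K} : c ∈ LC G col D τ A i ↔ IsLC G col D τ A i c := Iff.rfl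

theorem bd_mem {G : SimpleGraph V} {col : V → C} {D : Set C} {τ : V → K} {A : Set V} {i : ℕ}
    {c : Finset V → (C → Bool) → K} (h : c ∈ LC G col D τ A (i + 1)) :
    bd K c ∈ LC G col D τ A i := by
  rw [mem_LC] at h ⊢
  refine ⟨fun T hT => ?_, fun T t ht hD ε => ?_⟩
  · rw [bd_apply]
    refine Finset.sum_eq_zero fun v hv => ?_
    rw [h.supp (insert v T), smul_zero]
    rintro ⟨h3, h4, h5⟩
    apply hT
    refine ⟨h3.subset (by simp), fun x hx => h4 (by simp at hx ⊢; exact Or.inr hx), ?_⟩
    rw [Finset.card_insert_of_notMem (by simpa using hv)] at h5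
    omega
  · rw [bd_apply, Finset.sum_apply, Finset.sum_apply, mul_sum]
    refine sum_congr rfl fun v _ => ?_
    rw [Pi.smul_apply, Pi.smul_apply, h.line (insert v T) t (mem_insert_of_mem ht) hD ε,
      mul_smul_comm]

/-- cycles -/
def ZL (G : SimpleGraph V) (col : V → C) (D : Set C) (τ : V → K) (A : Set V) (i : ℕ) :
    Submodule K (Finset V → (C → Bool) → K) := LC G col D τ A i ⊓ LinearMap.ker (bd K)

/-- boundaries -/
def BL (G : SimpleGraph V) (col : V → C) (D : Set C) (τ : V → K) (A : Set V) (i : ℕ) :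
    Submodule K (Finset V → (C → Bool) → K) := (LC G col D τ A (i + 1)).map (bd K)

theorem BL_le_ZL (G : SimpleGraph V) (col : V → C) (D : Set C) (τ : V → K) (A : Set V) (i : ℕ) :
    BL G col D τ A i ≤ ZL G col D τ A i := by
  rintro _ ⟨c, hc, rfl⟩
  exact ⟨bd_mem hc, bd_bd c⟩

theorem ex_iff (G : SimpleGraph V) (col : V → C) (D : Set C) (τ : V → K) (A : Set V) (i : ℕ) :
    EX G col D τ A i ↔ ZL G col D τ A i ≤ BL G col D τ A i := by
  constructor
  · rintro h z ⟨hz, hb⟩
    obtain ⟨y, hy, hby⟩ := h z hz hb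
    exact ⟨y, hy, hby⟩
  · intro h z hz hb
    obtain ⟨y, hy, hby⟩ := h (show z ∈ ZL G col D τ A i from ⟨hz, hb⟩)
    exact ⟨y, hy, hby⟩

variable [Fintype C]

theorem finrank_succ (G : SimpleGraph V) (col : V → C) (D : Set C) (τ : V → K) (A : Set V)
    (i : ℕ) : Module.finrank K (LC G col D τ A (i + 1)) =
      Module.finrank K (ZL G col D τ A (i + 1)) + Module.finrank K (BL G col D τ A i) := by
  have h1 := LinearMap.finrank_range_add_finrank_ker
    ((bd K (V := V) (M := (C → Bool) → K)).domRestrict (LC G col D τ A (i + 1)))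
  rw [LinearMap.range_domRestrict, LinearMap.ker_domRestrict] at h1
  have h2 := Submodule.finrank_map_subtype_eq (LC G col D τ A (i + 1))
    (Submodule.comap (LC G col D τ A (i + 1)).subtype
      (LinearMap.ker (bd K (V := V) (M := (C → Bool) → K))))
  rw [Submodule.map_comap_subtype] at h2
  rw [← h1, add_comm]
  congr 1
  exact h2.symm

theorem zero_cycle (G : SimpleGraph V) (col : V → C) (D : Set C) (τ : V → K) (A : Set V) :
    ZL G col D τ A 0 = LC G col D τ A 0 := by
  apply le_antisymm inf_le_left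
  intro c hc
  refine ⟨hc, ?_⟩
  rw [SetLike.mem_coe, LinearMap.mem_ker]
  funext T
  rw [bd_apply]
  refine Finset.sum_eq_zero fun v hv => ?_
  have h1 : c (insert v T) = 0 := by
    apply (mem_LC.1 hc).supp
    rintro ⟨-, -, h3⟩
    rw [card_eq_zero] at h3
    exact (insert_ne_empty v T) h3
  rw [h1, smul_zero]

theorem euler (d z b : ℕ → ℚ) (h0 : d 0 = z 0) (hs : ∀ i, d (i + 1) = z (i + 1) + b i) (M : ℕ) :
    ∑ i ∈ range (M + 1), (-1 : ℚ) ^ i * d i =
      ∑ i ∈ range M, (-1 : ℚ) ^ i * (z i - b i) + (-1) ^ M * z M := by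
  induction M with
  | zero => simp [h0]
  | succ M ih =>
    rw [sum_range_succ, ih, sum_range_succ _ M, hs]
    ring

/-- clear the colours of `T` -/
def clr (col : V → C) (T : Finset V) (ε : C → Bool) : C → Bool :=
  fun c => if c ∈ T.image col then false else ε c

open Classical in
/-- free parameters of the line chains -/
noncomputable def SS (G : SimpleGraph V) (col : V → C) (A : Set V) (i : ℕ) :
    Finset (Finset V × (C → Bool)) :=
  univ.filter (fun x => (G.IsClique (x.1 : Set V) ∧ (x.1 : Set V) ⊆ A ∧ x.1.card = i) ∧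
    ∀ t ∈ x.1, x.2 (col t) = false)

theorem mem_SS (G : SimpleGraph V) (col : V → C) (A : Set V) (i : ℕ)
    (x : Finset V × (C → Bool)) : x ∈ SS G col A i ↔
      (G.IsClique (x.1 : Set V) ∧ (x.1 : Set V) ⊆ A ∧ x.1.card = i) ∧
    ∀ t ∈ x.1, x.2 (col t) = false := by
  simp only [SS, Finset.mem_filter, Finset.mem_univ, true_and]

/-- restriction -/
def res (G : SimpleGraph V) (col : V → C) (D : Set C) (τ : V → K) (A : Set V) (i : ℕ) :
    LC G col D τ A i →ₗ[K] (↥(SS G col A i) → K) where
  toFun c x := c.1 x.1.1 x.1.2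
  map_add' _ _ := rfl
  map_smul' _ _ := rfl

theorem res_inj (G : SimpleGraph V) (col : V → C) (D : Set C) (τ : V → K) (A : Set V) (i : ℕ)
    (hAD : ∀ v ∈ A, col v ∈ D) : Function.Injective (res G col D τ A i) := by
  rw [injective_iff_map_eq_zero]
  rintro ⟨c, hc⟩ h
  have hc' := mem_LC.1 hc
  apply Subtype.ext
  show c = 0
  funext T
  by_cases hT : G.IsClique (T : Set V) ∧ (T : Set V) ⊆ A ∧ T.card = i
  · have key : ∀ (m : ℕ) (ε : C → Bool), (T.filter (fun t => ε (col t) = true)).card = m →
        c T ε = 0 := by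
      intro m
      induction m using Nat.strong_induction_on with
      | _ m ih =>
        intro ε hε
        by_cases h1 : ∀ t ∈ T, ε (col t) = false
        · exact congrFun h ⟨(T, ε), (mem_SS G col A i (T, ε)).2 ⟨hT, h1⟩⟩
        · push Not at h1
          obtain ⟨t, ht, h2⟩ := h1
          have h2' : ε (col t) = true := by
            cases h3 : ε (col t)
            · exact absurd h3 h2
            · rfl
          have h3 : ε = Function.update ε (col t) true := by
            rw [← h2', Function.update_eq_self]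
          rw [h3, hc'.line T t ht (hAD t (hT.2.1 ht)) ε]
          have h4 : (T.filter (fun u => Function.update ε (col t) false (col u) = true)).card < m := by
            rw [← hε]
            apply card_lt_card
            rw [ssubset_iff_of_subset]
            · refine ⟨t, mem_filter.2 ⟨ht, h2'⟩, fun h5 => ?_⟩
              have h6 := (mem_filter.1 h5).2
              rw [Function.update_self] at h6
              exact absurd h6 (by simp)
            · intro u hu
              rw [mem_filter] at hu ⊢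
              refine ⟨hu.1, ?_⟩
              have h6 := hu.2
              by_cases h7 : col u = col t
              · rw [h7, Function.update_self] at h6
                exact absurd h6 (by simp)
              · rwa [Function.update_of_ne h7] at h6
          rw [ih _ h4 _ rfl, mul_zero]
    funext ε
    exact key _ ε rfl
  · exact hc'.supp T hT

theorem clr_update (col : V → C) (T : Finset V) (t : V) (ht : t ∈ T) (ε : C → Bool) (b : Bool) :
    clr col T (Function.update ε (col t) b) = clr col T ε := by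
  funext c
  unfold clr
  by_cases h : c ∈ T.image col
  · rw [if_pos h, if_pos h]
  · rw [if_neg h, if_neg h]
    have h1 : c ≠ col t := fun h2 => h (mem_image.2 ⟨t, ht, h2.symm⟩)
    rw [Function.update_of_ne h1]

theorem res_surj (G : SimpleGraph V) (col : V → C) (D : Set C) (τ : V → K) (A : Set V) (i : ℕ)
    (hG : ∀ u w, G.Adj u w → col u ≠ col w) : Function.Surjective (res G col D τ A i) := by
  classical
  intro b
  obtain ⟨b', hb'⟩ : ∃ b' : Finset V × (C → Bool) → K, b' =
    fun x => if h : x ∈ SS G col A i then b ⟨x, h⟩ else 0 := ⟨_, rfl⟩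
  obtain ⟨c, hc⟩ : ∃ c : Finset V → (C → Bool) → K, c =
    fun T ε => (∏ t ∈ T, if ε (col t) = true then τ t else 1) * b' (T, clr col T ε) := ⟨_, rfl⟩
  have hb0 : ∀ x, x ∉ SS G col A i → b' x = 0 := by
    intro x hx
    rw [hb']
    simp only
    rw [dif_neg hx]
  have hLC : c ∈ LC G col D τ A i := by
    rw [mem_LC]
    refine ⟨fun T hT => ?_, fun T t ht _ ε => ?_⟩
    · funext ε
      rw [hc]
      simp only
      rw [hb0, mul_zero]
      · rfl
      · intro h1
        exact hT ((mem_SS _ _ _ _ _).1 h1).1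
    · rw [hc]
      simp only
      rw [clr_update col T t ht, clr_update col T t ht]
      by_cases hT : G.IsClique (T : Set V)
      · rw [← mul_prod_erase T _ ht, ← mul_prod_erase T (fun u => if Function.update ε (col t) false
          (col u) = true then τ u else 1) ht, Function.update_self, Function.update_self]
        have h1 : ∏ x ∈ T.erase t, (if Function.update ε (col t) true (col x) = true then τ x else 1)
            = ∏ x ∈ T.erase t, (if Function.update ε (col t) false (col x) = true then τ x else 1) := by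
          apply prod_congr rfl
          intro u hu
          have h2 : col u ≠ col t := by
            apply hG
            exact hT (mem_of_mem_erase hu) ht (ne_of_mem_erase hu)
          rw [Function.update_of_ne h2, Function.update_of_ne h2]
        rw [h1, if_pos rfl, if_neg (by simp)]
        ring
      · have h1 : b' (T, clr col T ε) = 0 := by
          apply hb0
          intro h2
          exact hT ((mem_SS _ _ _ _ _).1 h2).1.1
        rw [h1, mul_zero, mul_zero, mul_zero]
  refine ⟨⟨c, hLC⟩, ?_⟩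
  funext x
  obtain ⟨⟨T, ε⟩, hx⟩ := x
  show c T ε = _
  have h1 := ((mem_SS _ _ _ _ _).1 hx).2
  have h2 : clr col T ε = ε := by
    funext a
    unfold clr
    by_cases h3 : a ∈ T.image col
    · rw [if_pos h3]
      obtain ⟨t, ht, rfl⟩ := mem_image.1 h3
      exact (h1 t ht).symm
    · rw [if_neg h3]
  rw [hc]
  simp only
  rw [h2, prod_eq_one, one_mul, hb']
  · simp only
    rw [dif_pos hx]
  · intro t ht
    rw [if_neg]
    have h3 : ε (col t) = false := h1 t ht
    rw [h3]
    simp

theorem finrank_LC (G : SimpleGraph V) (col : V → C) (D : Set C) (τ : V → K) (A : Set V) (i : ℕ)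
    (hG : ∀ u w, G.Adj u w → col u ≠ col w) (hAD : ∀ v ∈ A, col v ∈ D) :
    Module.finrank K (LC G col D τ A i) = (SS G col A i).card := by
  rw [(LinearEquiv.ofBijective (res G col D τ A i) ⟨res_inj G col D τ A i hAD,
    res_surj G col D τ A i hG⟩).finrank_eq, Module.finrank_fintype_fun_eq_card,
    Fintype.card_coe]

theorem card_eps (G : SimpleGraph V) (col : V → C) (hG : ∀ u w, G.Adj u w → col u ≠ col w)
    (T : Finset V) (hT : G.IsClique (T : Set V)) :
    (((univ : Finset (C → Bool)).filter (fun ε => ∀ t ∈ T, ε (col t) = false)).card : ℚ) =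
      2 ^ (Fintype.card C) * (1 / 2) ^ T.card := by
  classical
  have h1 : (univ : Finset (C → Bool)).filter (fun ε => ∀ t ∈ T, ε (col t) = false) =
      Fintype.piFinset (fun c => if c ∈ T.image col then ({false} : Finset Bool) else univ) := by
    ext ε
    rw [mem_filter, Fintype.mem_piFinset]
    constructor
    · rintro ⟨-, h⟩ c
      by_cases hc : c ∈ T.image col
      · rw [if_pos hc]
        obtain ⟨t, ht, rfl⟩ := mem_image.1 hc
        rw [h t ht]
        exact mem_singleton_self _
      · rw [if_neg hc]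
        exact mem_univ _
    · intro h
      refine ⟨mem_univ _, fun t ht => ?_⟩
      have h2 := h (col t)
      rw [if_pos (mem_image_of_mem col ht)] at h2
      exact mem_singleton.1 h2
  rw [h1, Fintype.card_piFinset, Nat.cast_prod]
  have h2 : ∀ c : C, (((if c ∈ T.image col then ({false} : Finset Bool) else univ).card : ℕ) : ℚ) =
      2 * (if c ∈ T.image col then (1 / 2) else 1) := by
    intro c
    by_cases hc : c ∈ T.image col
    · rw [if_pos hc, if_pos hc]
      simp
    · rw [if_neg hc, if_neg hc]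
      simp
  rw [prod_congr rfl (fun c _ => h2 c), prod_mul_distrib, prod_const, card_univ,
    prod_ite_mem, univ_inter, prod_const, card_image_of_injOn]
  intro u hu w hw huw
  by_contra hne
  exact hG u w (hT hu hw hne) huw

open Classical in
theorem card_SS (G : SimpleGraph V) (col : V → C) (A : Set V) (i : ℕ)
    (hG : ∀ u w, G.Adj u w → col u ≠ col w) :
    ((SS G col A i).card : ℚ) = ∑ T : Finset V,
      if (G.IsClique (T : Set V) ∧ (T : Set V) ⊆ A) ∧ T.card = i then
        2 ^ (Fintype.card C) * (1 / 2) ^ T.card else 0 := by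
  have h1 : (SS G col A i).card = ∑ T : Finset V,
      if (G.IsClique (T : Set V) ∧ (T : Set V) ⊆ A) ∧ T.card = i then
        ((univ : Finset (C → Bool)).filter (fun ε => ∀ t ∈ T, ε (col t) = false)).card else 0 := by
    unfold SS
    rw [card_filter, ← univ_product_univ, sum_product]
    apply sum_congr rfl
    intro T _
    by_cases hT : (G.IsClique (T : Set V) ∧ (T : Set V) ⊆ A) ∧ T.card = i
    · rw [if_pos hT, card_filter]
      apply sum_congr rfl
      intro ε _
      by_cases hε : ∀ t ∈ T, ε (col t) = false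
      · rw [if_pos hε, if_pos ⟨⟨hT.1.1, hT.1.2, hT.2⟩, hε⟩]
      · rw [if_neg hε, if_neg]
        rintro ⟨-, h2⟩
        exact hε h2
    · rw [if_neg hT]
      apply sum_eq_zero
      intro ε _
      rw [if_neg]
      rintro ⟨⟨h2, h3, h4⟩, -⟩
      exact hT ⟨⟨h2, h3⟩, h4⟩
  rw [h1, Nat.cast_sum]
  apply sum_congr rfl
  intro T _
  by_cases hT : (G.IsClique (T : Set V) ∧ (T : Set V) ⊆ A) ∧ T.card = i
  · rw [if_pos hT, if_pos hT, card_eps G col hG T hT.1.1]
  · rw [if_neg hT, if_neg hT, Nat.cast_zero]

open Classical in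
/-- exactness in one degree from the Euler characteristic -/
theorem ex_of_euler (G : SimpleGraph V) (col : V → C) (D : Set C) (τ : V → K) (A : Set V) (j : ℕ)
    (hG : ∀ u w, G.Adj u w → col u ≠ col w) (hAD : ∀ v ∈ A, col v ∈ D)
    (hE : ∑ T : Finset V, (if G.IsClique (T : Set V) ∧ (T : Set V) ⊆ A then
      (-1 / 2 : ℚ) ^ T.card else 0) = 0)
    (hex : ∀ i, i ≠ j → EX G col D τ A i) : EX G col D τ A j := by
  obtain ⟨M, hM⟩ : ∃ M : ℕ, M = Fintype.card V + j + 1 := ⟨_, rfl⟩
  have he := euler (fun i => (Module.finrank K (LC G col D τ A i) : ℚ))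
    (fun i => (Module.finrank K (ZL G col D τ A i) : ℚ))
    (fun i => (Module.finrank K (BL G col D τ A i) : ℚ))
    (by rw [zero_cycle])
    (fun i => by
      rw [finrank_succ]
      push_cast
      rfl) M
  have hz : ∀ i, i ≠ j → (Module.finrank K (ZL G col D τ A i) : ℚ) =
      (Module.finrank K (BL G col D τ A i) : ℚ) := by
    intro i hi
    have h1 := (ex_iff G col D τ A i).1 (hex i hi)
    rw [le_antisymm h1 (BL_le_ZL G col D τ A i)]
  have hlast : (Module.finrank K (ZL G col D τ A M) : ℚ) = 0 := by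
    have h1 : LC G col D τ A M = ⊥ := by
      rw [Submodule.eq_bot_iff]
      intro c hc
      funext T
      apply (mem_LC.1 hc).supp
      rintro ⟨-, -, h2⟩
      have h3 := card_le_univ T
      omega
    have h2 : ZL G col D τ A M = ⊥ := by
      rw [ZL, h1, bot_inf_eq]
    rw [h2, finrank_bot, Nat.cast_zero]
  have hleft : ∑ i ∈ range (M + 1), (-1 : ℚ) ^ i * (Module.finrank K (LC G col D τ A i) : ℚ) = 0 := by
    have h1 : ∀ i ∈ range (M + 1), (-1 : ℚ) ^ i * (Module.finrank K (LC G col D τ A i) : ℚ) =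
        ∑ T : Finset V, if T.card = i then (2 ^ (Fintype.card C) * (if G.IsClique (T : Set V) ∧
          (T : Set V) ⊆ A then (-1 / 2 : ℚ) ^ T.card else 0)) else 0 := by
      intro i _
      rw [finrank_LC G col D τ A i hG hAD, card_SS G col A i hG, mul_sum]
      apply sum_congr rfl
      intro T _
      by_cases hT : T.card = i
      · by_cases hT2 : G.IsClique (T : Set V) ∧ (T : Set V) ⊆ A
        · rw [if_pos ⟨hT2, hT⟩, if_pos hT, if_pos hT2, hT]
          rw [show (-1 / 2 : ℚ) = (-1) * (1 / 2) by norm_num, mul_pow]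
          ring
        · rw [if_neg (fun h => hT2 h.1), if_pos hT, if_neg hT2, mul_zero, mul_zero]
      · rw [if_neg (fun h => hT h.2), if_neg hT, mul_zero]
    rw [sum_congr rfl h1, sum_comm]
    have h2 : ∀ T : Finset V, ∑ i ∈ range (M + 1), (if T.card = i then
        (2 ^ (Fintype.card C) * (if G.IsClique (T : Set V) ∧
          (T : Set V) ⊆ A then (-1 / 2 : ℚ) ^ T.card else 0)) else 0) =
        2 ^ (Fintype.card C) * (if G.IsClique (T : Set V) ∧
          (T : Set V) ⊆ A then (-1 / 2 : ℚ) ^ T.card else 0) := by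
      intro T
      rw [sum_ite_eq, if_pos]
      have h3 := card_le_univ T
      rw [mem_range]
      omega
    rw [sum_congr rfl (fun T _ => h2 T), ← mul_sum, hE, mul_zero]
  rw [hleft, hlast, mul_zero, add_zero] at he
  have hsum : ∑ i ∈ range M, (-1 : ℚ) ^ i * ((Module.finrank K (ZL G col D τ A i) : ℚ) -
      (Module.finrank K (BL G col D τ A i) : ℚ)) = (-1 : ℚ) ^ j *
      ((Module.finrank K (ZL G col D τ A j) : ℚ) - (Module.finrank K (BL G col D τ A j) : ℚ)) := by
    apply sum_eq_single_of_mem j (mem_range.2 (by omega))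
    intro i _ hi
    rw [hz i hi, sub_self, mul_zero]
  rw [hsum] at he
  have h5 : (Module.finrank K (ZL G col D τ A j) : ℚ) = (Module.finrank K (BL G col D τ A j) : ℚ) := by
    have h6 : (-1 : ℚ) ^ j ≠ 0 := pow_ne_zero _ (by norm_num)
    have h7 := (mul_eq_zero.1 he.symm).resolve_left h6
    linarith
  have h8 : Module.finrank K (BL G col D τ A j) = Module.finrank K (ZL G col D τ A j) := by
    exact_mod_cast h5.symm
  rw [ex_iff]
  exact (Submodule.eq_of_le_of_finrank_eq (BL_le_ZL G col D τ A j) h8).ge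

end gen

theorem mem_dbl (n j : ℕ) (c : Fin n) : c ∈ DblF n j ↔ Even c.val ∧ c.val < 2 * j := by
  unfold DblF
  rw [mem_filter]
  exact and_iff_right (mem_univ _)

theorem card_dbl (n j : ℕ) (h : 2 * j + 1 ≤ n) : (DblF n (j + 1)).card = j + 1 := by
  have h1 : (DblF n (j + 1)) = (univ : Finset (Fin (j + 1))).image
      (fun k => (⟨2 * k.val, by have := k.isLt; omega⟩ : Fin n)) := by
    ext c
    rw [mem_dbl, mem_image]
    constructor
    · rintro ⟨⟨k, hk⟩, h2⟩
      refine ⟨⟨k, by omega⟩, mem_univ _, ?_⟩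
      apply Fin.ext
      show 2 * k = c.val
      omega
    · rintro ⟨k, -, rfl⟩
      refine ⟨⟨k.val, ?_⟩, ?_⟩
      · show 2 * k.val = k.val + k.val
        ring
      · show 2 * k.val < 2 * (j + 1)
        have := k.isLt
        omega
  rw [h1, card_image_of_injective, card_univ, Fintype.card_fin]
  intro a b hab
  have h2 := congrArg Fin.val hab
  simp only at h2
  apply Fin.ext
  omega

theorem cstep (hLADD : M_LADD) (hCONVB : M_CONVB) (hEULF : M_EULF) : M_CSTEP := by
  classical
  intro n V K _ _ _ _ r rk τ j hGor hVV hTZ N hN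
  have hadj : ∀ u w, (W907.SM.cmp r).Adj u w → rk u ≠ rk w := by
    intro u w huw
    rcases huw.2 with h | h
    · exact (hGor.rk_lt _ _ h).ne
    · exact (hGor.rk_lt _ _ h).ne'
  have hNrk : ∀ v ∈ N, (rk v : ℕ) < 2 * j + 1 := by
    intro v hv
    rcases hN with ⟨-, h2⟩ | ⟨y, h1, h2⟩
    · rw [h2]
      exact (rk v).isLt
    · rw [h1] at hv
      have h3 : (rk v : ℕ) < (rk y : ℕ) := hGor.rk_lt _ _ hv
      omega
  have hn : 2 * j + 1 ≤ n := by
    rcases hN with ⟨-, h2⟩ | ⟨y, h1, h2⟩
    · omega
    · have := (rk y).isLt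
      omega
  obtain ⟨F0, hF0c, hF0r, hF0N⟩ : ∃ F0 : Finset V, (W907.SM.cmp r).IsClique (F0 : Set V) ∧
      (∀ u ∈ F0, (rk u : ℕ) = 2 * j + 1) ∧
      ∀ v, (rk v : ℕ) < 2 * j + 1 → (v ∈ lk (W907.SM.cmp r) F0 ↔ v ∈ N) := by
    rcases hN with ⟨h1, h2⟩ | ⟨y, h1, h2⟩
    · refine ⟨∅, by simp, by simp, fun v _ => ?_⟩
      rw [h1]
      simp [lk]
    · refine ⟨{y}, by simp, fun u hu => ?_, fun v hv => ?_⟩
      · rw [mem_singleton.1 hu, ← h2]
      · rw [h1]
        constructor
        · intro h3
          have h4 : (W907.SM.cmp r).Adj v y := h3 y (mem_singleton_self y)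
          rcases h4.2 with h5 | h5
          · exact h5
          · have h6 : (rk y : ℕ) < (rk v : ℕ) := hGor.rk_lt _ _ h5
            omega
        · intro h3 u hu
          rw [mem_singleton.1 hu]
          refine ⟨?_, Or.inl h3⟩
          rintro rfl
          exact lt_irrefl _ (hGor.rk_lt _ _ h3)
  -- the set A
  obtain ⟨A, hA⟩ : ∃ A : Set V, A = N ∩ {v | rk v ∈ DblF n j} := ⟨_, rfl⟩
  have hAD : ∀ v ∈ A, rk v ∈ (DblF n j : Set (Fin n)) ↔ rk v ∈ (DblF n (j + 1) : Set (Fin n)) := by
    intro v hv
    rw [hA] at hv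
    have h1 : rk v ∈ DblF n j := hv.2
    rw [mem_coe, mem_coe]
    refine ⟨fun _ => ?_, fun _ => h1⟩
    rw [mem_dbl] at h1 ⊢
    exact ⟨h1.1, by omega⟩
  have hlow : ∀ F : Finset V, (W907.SM.cmp r).IsClique (F : Set V) → (∀ u ∈ F, 2 * j ≤ (rk u : ℕ)) →
      ∀ i, i < j → EX (W907.SM.cmp r) rk (DblF n j : Set (Fin n)) τ
        (lk (W907.SM.cmp r) F ∩ {v | rk v ∈ DblF n j ∪ ∅}) i := by
    intro F hF1 hF2 i hi
    apply hVV F ∅ hF1 hF2 (by simp) (by simp) i
    simpa using hi
  have hexA : ∀ i, i < j → EX (W907.SM.cmp r) rk (DblF n (j + 1) : Set (Fin n)) τ A i := by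
    intro i hi
    have h1 := hlow F0 hF0c (fun u hu => by rw [hF0r u hu]; omega) i hi
    have h2 : lk (W907.SM.cmp r) F0 ∩ {v | rk v ∈ DblF n j ∪ ∅} = A := by
      rw [hA, union_empty]
      ext v
      constructor
      · rintro ⟨h3, h4⟩
        have h5 := (mem_dbl n j (rk v)).1 h4
        exact ⟨(hF0N v (by omega)).1 h3, h4⟩
      · rintro ⟨h3, h4⟩
        have h5 := (mem_dbl n j (rk v)).1 h4
        exact ⟨(hF0N v (by omega)).2 h3, h4⟩
    rw [h2] at h1
    exact ex_congr hAD h1
  have hexQ : ∀ i, i < j → ∀ Q : Finset V, (∀ q ∈ Q, q ∈ N ∧ (rk q : ℕ) = 2 * j) →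
      EX (W907.SM.cmp r) rk (DblF n (j + 1) : Set (Fin n)) τ (A ∪ (Q : Set V)) i := by
    intro i hi Q
    induction Q using Finset.induction_on with
    | empty =>
      intro _
      rw [coe_empty, Set.union_empty]
      exact hexA i hi
    | insert R Q hR ih =>
      intro hQ
      have hRN := hQ R (mem_insert_self R Q)
      have h1 : A ∪ ((insert R Q : Finset V) : Set V) = insert R (A ∪ (Q : Set V)) := by
        rw [coe_insert, Set.union_insert]
      rw [h1]
      have hRA : R ∉ A ∪ (Q : Set V) := by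
        rintro (h2 | h2)
        · rw [hA] at h2
          have h3 := (mem_dbl n j (rk R)).1 h2.2
          omega
        · exact hR h2
      apply hLADD V (Fin n) K (W907.SM.cmp r) rk _ τ (A ∪ (Q : Set V)) R i hadj hRA
        (ih (fun q hq => hQ q (mem_insert_of_mem hq)))
      intro i' hi'
      have h2 : (W907.SM.cmp r).IsClique ((insert R F0 : Finset V) : Set V) := by
        rw [coe_insert, SimpleGraph.isClique_insert]
        refine ⟨hF0c, fun b hb hne => ?_⟩
        exact (hF0N R (hNrk R hRN.1)).2 hRN.1 b hb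
      have h3 := hlow (insert R F0) h2 (fun u hu => by
        rcases mem_insert.1 hu with h | h
        · rw [h, hRN.2]
        · rw [hF0r u h]; omega) i' (by omega)
      have h4 : lk (W907.SM.cmp r) (insert R F0) ∩ {v | rk v ∈ DblF n j ∪ ∅} =
          (A ∪ (Q : Set V)) ∩ (W907.SM.cmp r).neighborSet R := by
        rw [hA, union_empty]
        ext v
        constructor
        · rintro ⟨h5, h6⟩
          have h7 := (mem_dbl n j (rk v)).1 h6
          have h8 : (W907.SM.cmp r).Adj v R := h5 R (mem_insert_self R F0)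
          refine ⟨Or.inl ⟨(hF0N v (by omega)).1 (fun u hu => h5 u (mem_insert_of_mem hu)), h6⟩, ?_⟩
          exact h8.symm
        · rintro ⟨h5 | h5, h6⟩
          · have h7 := (mem_dbl n j (rk v)).1 h5.2
            refine ⟨fun u hu => ?_, h5.2⟩
            rcases mem_insert.1 hu with h | h
            · rw [h]
              exact (SimpleGraph.Adj.symm h6)
            · exact (hF0N v (by omega)).2 h5.1 u h
          · exfalso
            have h7 : (W907.SM.cmp r).Adj R v := h6
            apply hadj R v h7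
            apply Fin.ext
            rw [hRN.2, (hQ v (mem_insert_of_mem h5)).2]
      rw [h4] at h3
      refine ex_congr ?_ h3
      rintro v ⟨h5 | h5, h6⟩
      · exact hAD v h5
      · exfalso
        have h7 : (W907.SM.cmp r).Adj R v := h6
        apply hadj R v h7
        apply Fin.ext
        rw [hRN.2, (hQ v (mem_insert_of_mem h5)).2]
  obtain ⟨A', hA'⟩ : ∃ A' : Set V, A' = N ∩ {v | rk v ∈ DblF n (j + 1)} := ⟨_, rfl⟩
  have hlow' : ∀ i, i < j → EX (W907.SM.cmp r) rk (DblF n (j + 1) : Set (Fin n)) τ A' i := by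
    intro i hi
    have h1 := hexQ i hi (univ.filter (fun q => q ∈ N ∧ (rk q : ℕ) = 2 * j)) (fun q hq =>
      (mem_filter.1 hq).2)
    have h2 : A ∪ ((univ.filter (fun q => q ∈ N ∧ (rk q : ℕ) = 2 * j) : Finset V) : Set V) = A' := by
      rw [hA, hA']
      ext v
      constructor
      · rintro (h3 | h3)
        · refine ⟨h3.1, ?_⟩
          have h4 := (mem_dbl n j (rk v)).1 h3.2
          exact (mem_dbl n (j + 1) (rk v)).2 ⟨h4.1, by omega⟩
        · have h4 := (mem_filter.1 h3).2
          refine ⟨h4.1, (mem_dbl n (j + 1) (rk v)).2 ⟨?_, by omega⟩⟩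
          rw [h4.2]
          exact even_two_mul j
      · rintro ⟨h3, h4⟩
        have h5 := (mem_dbl n (j + 1) (rk v)).1 h4
        by_cases h6 : (rk v : ℕ) < 2 * j
        · exact Or.inl ⟨h3, (mem_dbl n j (rk v)).2 ⟨h5.1, h6⟩⟩
        · refine Or.inr (mem_filter.2 ⟨mem_univ _, h3, ?_⟩)
          obtain ⟨k, hk⟩ := h5.1
          omega
    rwa [h2] at h1
  have hcard := card_dbl n j hn
  have hhigh : ∀ i, j + 1 < i → EX (W907.SM.cmp r) rk (DblF n (j + 1) : Set (Fin n)) τ A' i := by
    intro i hi z hz _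
    have h1 : z = 0 := by
      funext T
      apply hz.supp
      rintro ⟨h2, h3, h4⟩
      have h5 : T.card ≤ (DblF n (j + 1)).card := by
        apply card_le_card_of_injOn rk
        · intro t ht
          have h6 := h3 ht
          rw [hA'] at h6
          exact h6.2
        · intro a ha b hb hab
          by_contra hne
          exact hadj a b (h2 ha hb hne) hab
      omega
    refine ⟨0, ⟨fun _ _ => rfl, fun _ _ _ _ _ => by simp⟩, ?_⟩
    rw [h1]
    funext T
    simp [bdd]
  have htop : EX (W907.SM.cmp r) rk (DblF n (j + 1) : Set (Fin n)) τ A' (j + 1) := by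
    intro z hz hb
    have h1 : z = 0 := by
      apply hCONVB n V K r rk τ N (DblF n (j + 1)) hGor.rk_lt (hTZ N hN) z _ hb
      rw [hcard, ← hA']
      exact hz
    refine ⟨0, ⟨fun _ _ => rfl, fun _ _ _ _ _ => by simp⟩, ?_⟩
    rw [h1]
    funext T
    simp [bdd]
  have hmid : EX (W907.SM.cmp r) rk (DblF n (j + 1) : Set (Fin n)) τ A' j := by
    apply ex_of_euler (W907.SM.cmp r) rk _ τ A' j hadj
    · intro v hv
      rw [hA'] at hv
      exact hv.2
    · refine Eq.trans (sum_congr rfl fun T _ => ?_) (hEULF n V r rk hGor N j hN)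
      have h1 : ((W907.SM.cmp r).IsClique (T : Set V) ∧ (T : Set V) ⊆ A') ↔ ((W907.SM.cmp r).IsClique (T : Set V) ∧
          (T : Set V) ⊆ N ∧ ∀ t ∈ T, Even (rk t : ℕ)) := by
        rw [hA']
        constructor
        · rintro ⟨h2, h3⟩
          exact ⟨h2, fun t ht => (h3 ht).1, fun t ht => ((mem_dbl n (j + 1) (rk t)).1 (h3 ht).2).1⟩
        · rintro ⟨h2, h3, h4⟩
          refine ⟨h2, fun t ht => ⟨h3 ht, (mem_dbl n (j + 1) (rk t)).2 ⟨h4 t ht, ?_⟩⟩⟩
          have := hNrk t (h3 ht)
          omega
      by_cases h2 : (W907.SM.cmp r).IsClique (T : Set V) ∧ (T : Set V) ⊆ N ∧ ∀ t ∈ T, Even (rk t : ℕ)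
      · rw [if_pos h2, if_pos (h1.2 h2)]
      · rw [if_neg h2, if_neg (fun h => h2 (h1.1 h))]
    · intro i hi
      rcases lt_trichotomy i j with h | h | h
      · exact hlow' i h
      · exact absurd h hi
      · rcases Nat.lt_or_ge (j + 1) i with h' | h'
        · exact hhigh i h'
        · have h2 : i = j + 1 := by omega
          rw [h2]
          exact htop
  intro i
  rw [← hA']
  rcases lt_trichotomy i j with h | h | h
  · exact hlow' i h
  · rw [h]
    exact hmid
  · rcases Nat.lt_or_ge (j + 1) i with h' | h'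
    · exact hhigh i h'
    · have h2 : i = j + 1 := by omega
      rw [h2]
      exact htop

end Pool.Agent.W85.SM.CStep
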